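import Pool.Agent.R917.ExpGrp

/-!
# Project MO, part EXP: the semisimple part, exponentials of matrices (helper712)
-/

set_option autoImplicit false
set_option linter.unusedSectionVars false

open Matrix Finset

namespace Pool.Agent.N712.MO

variable {R : Type} [Fintype R] [DecidableEq R]

section norms

attribute [local instance] Matrix.linftyOpNormedRing Matrix.linftyOpNormedAlgebra

/-- the exponential of a multiple of an idempotent -/
theorem exp_idem {P : Matrix R R ℂ} (hP : P * P = P) (z : ℂ) :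
    NormedSpace.exp (z • P) = 1 + (Complex.exp z - 1) • P := by
  have h1 := NormedSpace.exp_series_hasSum_exp' (𝕂 := ℂ) (z • P)
  have h2 := NormedSpace.exp_series_hasSum_exp' (𝕂 := ℂ) z
  rw [← Complex.exp_eq_exp_ℂ] at h2
  have h3 := h2.smul_const P
  have h4 : HasSum (fun n : ℕ => if n = 0 then (1 - P) else 0) (1 - P) := hasSum_ite_eq 0 (1 - P)
  have h5 := h3.add h4
  have hpow : ∀ n : ℕ, P ^ (n + 1) = P := by
    intro n
    induction n with
    | zero => rw [zero_add, pow_one]
    | succ n ih => rw [pow_succ, ih, hP]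
  have h6 : ∀ n : ℕ, ((n.factorial : ℂ)⁻¹) • (z • P) ^ n =
      (((n.factorial : ℂ)⁻¹) • z ^ n) • P + if n = 0 then (1 - P) else 0 := by
    intro n
    rcases n with _ | n
    · simp
    · rw [if_neg (Nat.succ_ne_zero n), add_zero, smul_pow, hpow, smul_smul, smul_eq_mul]
  refine (h1.unique (h5.congr_fun h6)).trans ?_
  rw [sub_smul, one_smul]
  abel

theorem exp_nil {N : Matrix R R ℂ} (hN : N * N = 0) (z : ℂ) :
    NormedSpace.exp (z • N) = 1 + z • N := by
  have h1 := NormedSpace.exp_series_hasSum_exp' (𝕂 := ℂ) (z • N)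
  have h2 : HasSum (fun n : ℕ => ((n.factorial : ℂ)⁻¹) • (z • N) ^ n)
      (∑ n ∈ range 2, ((n.factorial : ℂ)⁻¹) • (z • N) ^ n) := by
    refine hasSum_sum_of_ne_finset_zero fun n hn => ?_
    have h3 : 2 ≤ n := by
      rw [mem_range] at hn
      omega
    obtain ⟨k, rfl⟩ := Nat.exists_eq_add_of_le h3
    rw [smul_pow, pow_add N, pow_two N, hN, zero_mul, smul_zero, smul_zero]
  refine (h1.unique h2).trans ?_
  rw [sum_range_succ, sum_range_one]
  simp

end norms

/-- the idempotents -/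
noncomputable def PP (X : Matrix R R ℂ) (ε : ℂ) : Matrix R R ℂ :=
  (1 / 2 : ℂ) • (-(X * X) - (ε * Complex.I) • X)

theorem PP_mul {X : Matrix R R ℂ} (hX : X * X * X = -X) (ε δ : ℂ) :
    PP X ε * PP X δ = (1 / 4 : ℂ) • (-(1 + ε * δ) • (X * X) - ((ε + δ) * Complex.I) • X) := by
  have h1 : X * X * (X * X) = -(X * X) := by
    rw [← Matrix.mul_assoc, hX, Matrix.neg_mul]
  have h2 : X * (X * X) = -X := by rw [← Matrix.mul_assoc, hX]
  have hI : Complex.I * Complex.I = -1 := Complex.I_mul_I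
  unfold PP
  rw [Matrix.smul_mul, Matrix.mul_smul, smul_smul, Matrix.sub_mul, Matrix.mul_sub, Matrix.mul_sub,
    Matrix.neg_mul, Matrix.mul_neg, neg_neg, Matrix.neg_mul, Matrix.mul_neg, Matrix.mul_smul,
    Matrix.smul_mul, Matrix.smul_mul, Matrix.mul_smul, smul_smul, h1, h2, hX]
  have h3 : ε * Complex.I * (δ * Complex.I) = -(ε * δ) := by linear_combination ε * δ * hI
  rw [h3]
  have h4 : (1 / 2 : ℂ) * (1 / 2) = 1 / 4 := by norm_num
  rw [h4]
  congr 1
  module

theorem PP_idem {X : Matrix R R ℂ} (hX : X * X * X = -X) {ε : ℂ} (hε : ε * ε = 1) :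
    PP X ε * PP X ε = PP X ε := by
  rw [PP_mul hX, hε]
  unfold PP
  module

theorem PP_orth {X : Matrix R R ℂ} (hX : X * X * X = -X) : PP X 1 * PP X (-1) = 0 := by
  rw [PP_mul hX]
  module

theorem PP_orth' {X : Matrix R R ℂ} (hX : X * X * X = -X) : PP X (-1) * PP X 1 = 0 := by
  rw [PP_mul hX]
  module

theorem PP_dec (X : Matrix R R ℂ) : Complex.I • PP X 1 + (-Complex.I) • PP X (-1) = X := by
  have hI : Complex.I * Complex.I = -1 := Complex.I_mul_I
  unfold PP
  rw [smul_smul, smul_smul]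
  have h : (Complex.I * (1 / 2)) • (-(X * X) - (1 * Complex.I) • X) +
      (-Complex.I * (1 / 2)) • (-(X * X) - (-1 * Complex.I) • X) =
      (-(Complex.I * Complex.I)) • X := by module
  rw [h, hI, neg_neg, one_smul]

theorem exp_X {X : Matrix R R ℂ} (hX : X * X * X = -X) (s : ℂ) :
    NormedSpace.exp (s • X) = (1 + (Complex.exp (s * Complex.I) - 1) • PP X 1) *
      (1 + (Complex.exp (s * -Complex.I) - 1) • PP X (-1)) := by
  have h1 : s • X = (s * Complex.I) • PP X 1 + (s * -Complex.I) • PP X (-1) := by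
    conv_lhs => rw [← PP_dec X]
    rw [smul_add, smul_smul, smul_smul]
  rw [h1, Matrix.exp_add_of_commute, exp_idem (PP_idem hX (one_mul 1)),
    exp_idem (PP_idem hX (by norm_num))]
  show _ * _ = _ * _
  rw [Matrix.smul_mul, Matrix.smul_mul, Matrix.mul_smul, Matrix.mul_smul, PP_orth hX, PP_orth' hX]
  simp

/-- periodicity -/
theorem exp_period {X : Matrix R R ℂ} (hX : X * X * X = -X) (t : ℂ) (m : ℤ) :
    NormedSpace.exp ((t + m * (2 * Real.pi)) • X) = NormedSpace.exp (t • X) := by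
  rw [exp_X hX, exp_X hX]
  have h1 : Complex.exp ((t + m * (2 * Real.pi)) * Complex.I) = Complex.exp (t * Complex.I) := by
    rw [Complex.exp_eq_exp_iff_exists_int]
    exact ⟨m, by ring⟩
  have h2 : Complex.exp ((t + m * (2 * Real.pi)) * -Complex.I) = Complex.exp (t * -Complex.I) := by
    rw [Complex.exp_eq_exp_iff_exists_int]
    exact ⟨-m, by push_cast; ring⟩
  rw [h1, h2]

theorem PP_N {X N : Matrix R R ℂ} (h : X * N = 0) (ε : ℂ) : PP X ε * N = 0 := by
  unfold PP
  rw [Matrix.smul_mul, Matrix.sub_mul, Matrix.neg_mul, Matrix.mul_assoc, h, Matrix.smul_mul, h]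
  simp

theorem exp_XN {X N : Matrix R R ℂ} (hX : X * X * X = -X) (h1 : X * N = 0) (h2 : N * X = 0)
    (h3 : N * N = 0) (s : ℂ) :
    NormedSpace.exp (s • (X + N)) = NormedSpace.exp (s • X) + s • N := by
  rw [smul_add, Matrix.exp_add_of_commute, exp_nil h3]
  · have h4 : NormedSpace.exp (s • X) * N = N := by
      have h5 : ∀ a ε : ℂ, (1 + a • PP X ε) * N = N := fun a ε => by
        rw [Matrix.add_mul, Matrix.one_mul, Matrix.smul_mul, PP_N h1, smul_zero, add_zero]
      rw [exp_X hX, Matrix.mul_assoc, h5, h5]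
    rw [Matrix.mul_add, Matrix.mul_one, Matrix.mul_smul, h4]
  · show _ * _ = _ * _
    rw [Matrix.smul_mul, Matrix.smul_mul, Matrix.mul_smul, Matrix.mul_smul, h1, h2]

theorem zero_of_inf (p : MvPolynomial (R × R) ℚ) (E N : Matrix R R ℂ) (t : ℂ)
    (h : ∀ m : ℕ, MvPolynomial.aeval
      (fun b : R × R => (E + (t + (m : ℤ) * (2 * Real.pi)) • N) b.1 b.2) p = 0) :
    MvPolynomial.aeval (fun b : R × R => E b.1 b.2) p = 0 := by
  obtain ⟨q, hq⟩ : ∃ q : Polynomial ℂ, q = MvPolynomial.aeval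
      (fun b : R × R => Polynomial.C (E b.1 b.2) + Polynomial.X * Polynomial.C (N b.1 b.2)) p :=
    ⟨_, rfl⟩
  have he : ∀ c : ℂ, q.eval c = MvPolynomial.aeval (fun b : R × R => (E + c • N) b.1 b.2) p := by
    intro c
    have h1 : q.eval c = ((Polynomial.aeval c : Polynomial ℂ →ₐ[ℂ] ℂ).restrictScalars ℚ) q := by
      rw [AlgHom.restrictScalars_apply, Polynomial.coe_aeval_eq_eval]
    rw [h1, hq, ← AlgHom.comp_apply, MvPolynomial.comp_aeval]
    congr 2
    funext b
    simp only [Matrix.add_apply, Matrix.smul_apply, AlgHom.restrictScalars_apply, map_add, map_mul,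
      Polynomial.aeval_C, Polynomial.aeval_X, Algebra.algebraMap_self, RingHom.id_apply, smul_eq_mul]
  have h0 : q = 0 := by
    refine Polynomial.eq_zero_of_infinite_isRoot q ?_
    refine Set.Infinite.mono (s := Set.range fun m : ℕ => t + ((m : ℤ) : ℂ) * (2 * Real.pi)) ?_ ?_
    · rintro _ ⟨m, rfl⟩
      show q.eval _ = 0
      rw [he]
      exact h m
    · refine Set.infinite_range_of_injective fun m n hmn => ?_
      have h1 : ((m : ℤ) : ℂ) * (2 * Real.pi) = ((n : ℤ) : ℂ) * (2 * Real.pi) :=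
        add_left_cancel hmn
      have h2 : (2 * Real.pi : ℂ) ≠ 0 := by
        exact_mod_cast mul_ne_zero two_ne_zero Real.pi_ne_zero
      have h3 := mul_right_cancel₀ h2 h1
      exact_mod_cast h3
  have h1 := he 0
  rw [h0, Polynomial.eval_zero] at h1
  rw [h1]
  congr 2
  funext b
  simp

end Pool.Agent.N712.MO
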