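import Pool.Agent.N192.MO.StmA
import Pool.Agent.N712.MO.Exp0

/-!
# Project MO, part EXP: the semisimple part of an element of the Lie algebra (helper712)
-/

set_option autoImplicit false

open Matrix

namespace Pool.Agent.N712.MO

open Pool.Agent.TH119.MX

theorem exp_ : Pool.Agent.N192.MO.S_EXP := by
  intro R _ _ G hG X N hX h1 h2 h3 hS t
  have hgrp := Pool.Agent.R917.algGrp_of hG
  have key : ∀ s : ℂ, ∃ x ∈ G, (x : Matrix R R ℂ) = NormedSpace.exp (s • X) + s • N := by
    intro s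
    have h4 : NormedSpace.exp (s • (X + N)) ∈ {M : Matrix R R ℂ | ∃ x ∈ G, (x : Matrix R R ℂ) = M} :=
      Pool.Agent.R917.exp_mem hgrp fun δ => (hS δ).smul s
    rw [exp_XN hX h1 h2 h3] at h4
    exact h4
  obtain ⟨S, hS'⟩ := hG
  have hc : Commute (t • X) (-(t • X)) := (Commute.refl _).neg_right
  have e1 : NormedSpace.exp (t • X) * NormedSpace.exp (-(t • X)) = 1 := by
    rw [← Matrix.exp_add_of_commute _ _ hc, add_neg_cancel, NormedSpace.exp_zero]
  have e2 : NormedSpace.exp (-(t • X)) * NormedSpace.exp (t • X) = 1 := by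
    rw [← Matrix.exp_add_of_commute _ _ hc.symm, neg_add_cancel, NormedSpace.exp_zero]
  refine ⟨⟨NormedSpace.exp (t • X), NormedSpace.exp (-(t • X)), e1, e2⟩, ?_, rfl⟩
  rw [hS']
  intro p hp
  refine zero_of_inf p (NormedSpace.exp (t • X)) N t fun m => ?_
  obtain ⟨x, hx, hxe⟩ := key (t + (m : ℤ) * (2 * Real.pi))
  rw [exp_period hX] at hxe
  have h5 := (hS' x).1 hx p hp
  rw [hxe] at h5
  exact h5

end Pool.Agent.N712.MO
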